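import Mathlib
import Pool.Agent.H2.Lens2
import Pool.Agent.H2.Lens3

namespace Pool.Agent.Results.MP_1b0b4e_gt.Pair

open MvPolynomial

/-- `ξ = exp (2 π i / q)`. -/
noncomputable def xi (q : ℕ) : ℂ := Complex.exp (2 * Real.pi * Complex.I / q)

/-- Complex polynomial functions on `ℂ^n = ℝ^(2n)`: `inl j` is `z_j`, `inr j` is `conj z_j`. -/
abbrev Pol (n : ℕ) := MvPolynomial (Fin n ⊕ Fin n) ℂ

/-- A quarter of the Euclidean Laplacian: the sum of `∂/∂z_j ∂/∂(conj z_j)`. -/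
noncomputable def lap (n : ℕ) : Pol n →ₗ[ℂ] Pol n :=
  ∑ j : Fin n, (pderiv (Sum.inl j)).toLinearMap ∘ₗ (pderiv (Sum.inr j)).toLinearMap

/-- Composition of a polynomial with `g = diag (ξ^(s j))`. -/
noncomputable def act (q : ℕ) {n : ℕ} (s : Fin n → ℤ) : Pol n →ₐ[ℂ] Pol n :=
  aeval (Sum.elim (fun j => C (xi q ^ s j) * X (Sum.inl j))
    fun j => C (xi q ^ (-s j)) * X (Sum.inr j))

/-- The `g`-invariant harmonic homogeneous polynomials of degree `k`. -/
noncomputable def harm (q : ℕ) {n : ℕ} (s : Fin n → ℤ) (k : ℕ) : Submodule ℂ (Pol n) :=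
  homogeneousSubmodule (Fin n ⊕ Fin n) ℂ k ⊓
    LinearMap.eqLocus (act q s).toLinearMap LinearMap.id ⊓ LinearMap.ker (lap n)

/-- The `m`-th power of `g = diag (ξ^(s j))` acting on `ℂ^n`. -/
noncomputable def rot (q : ℕ) {n : ℕ} (s : Fin n → ℤ) (m : ℤ) (z : Fin n → ℂ) : Fin n → ℂ :=
  fun j => xi q ^ (m * s j) * z j

open Pool.Agent.H2.Lens

theorem inv_eq {n : ℕ} (s : Fin n → ℤ) (k : ℕ) : Nat.card (S 56 s k) =
    A (List.ofFn (Fin.append (fun j => (s j : ZMod 56)) fun j => -(s j : ZMod 56))) k 0 := by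
  rw [← card_eq_A, ← Nat.card_eq_finsetCard]
  refine Nat.card_congr (Equiv.subtypeEquiv ((Finsupp.equivFunOnFinite.trans
    (Equiv.sumArrowEquivProdArrow _ _ _)).trans (Fin.appendEquiv n n)) fun p => ?_)
  simp only [Finset.mem_filter, Finset.Nat.mem_antidiagonalTuple, Fin.sum_univ_add,
    Fin.appendEquiv_apply, Fin.append_left, Fin.append_right, Equiv.trans_apply, S, W,
    Set.mem_setOf_eq, Equiv.sumArrowEquivProdArrow_apply_fst,
    Equiv.sumArrowEquivProdArrow_apply_snd, Finsupp.equivFunOnFinite_apply]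
  refine and_congr Iff.rfl ?_
  rw [← ZMod.intCast_zmod_eq_zero_iff_dvd, ← Finset.sum_add_distrib]
  push_cast
  rw [Finset.sum_congr rfl fun j _ =>
    show (s j : ZMod 56) * ((p (Sum.inl j) : ZMod 56) - p (Sum.inr j)) =
      (p (Sum.inl j) : ZMod 56) * s j + (p (Sum.inr j) : ZMod 56) * -(s j : ZMod 56) by ring]

def s1 : Fin 11 → ℤ := ![1, 1, 3, 9, 13, 15, 15, 17, 17, 23, 25]
def s2 : Fin 11 → ℤ := ![1, 1, 3, 9, 27, 15, 15, 17, 17, 23, 25]

theorem prim : IsPrimitiveRoot (xi 56) 56 := Complex.isPrimitiveRoot_exp 56 (by norm_num)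

theorem not_conj (B : (Fin 11 → ℂ) ≃ₗ[ℝ] (Fin 11 → ℂ)) (l : ℤ)
    (h : ∀ z, B (rot 56 s2 1 z) = rot 56 s1 l (B z)) : False := by
  have h0 : xi 56 ≠ 0 := prim.ne_zero (by norm_num)
  have key : ∀ l : ZMod 56, ∃ j, ∀ i, l * (s1 i : ZMod 56) ≠ (s2 j : ZMod 56) ∧
      l * (s1 i : ZMod 56) ≠ -(s2 j : ZMod 56) := by decide +kernel
  obtain ⟨j, hj⟩ := key l
  have hinv : ∀ z, B (rot 56 s2 (-1) z) = rot 56 s1 (-l) (B z) := by
    intro z
    have h1 := h (rot 56 s2 (-1) z)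
    have h2 : rot 56 s2 1 (rot 56 s2 (-1) z) = z := by
      funext i
      simp only [rot]
      rw [← mul_assoc, ← zpow_add₀ h0]; simp
    rw [h2] at h1
    rw [h1]
    funext i
    simp only [rot]
    rw [← mul_assoc, ← zpow_add₀ h0]; simp
  set v := xi 56 ^ s2 j with hv
  have hv0 : v ≠ 0 := zpow_ne_zero _ h0
  have hn : ‖v‖ = 1 := by rw [hv, norm_zpow, prim.norm'_eq_one (by norm_num), one_zpow]
  have hc : v + v⁻¹ = ((2 * v.re : ℝ) : ℂ) := by rw [Complex.inv_eq_conj hn, Complex.add_conj]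
  let e : Fin 11 → ℂ := Pi.single j 1
  have he : rot 56 s2 1 e + rot 56 s2 (-1) e = (2 * v.re : ℝ) • e := by
    funext i
    by_cases hi : i = j
    · subst hi
      simp only [Pi.add_apply, rot, e, Pi.single_eq_same, mul_one, one_mul, neg_mul, zpow_neg,
        Pi.smul_apply, Complex.real_smul]
      exact hc
    · simp [rot, e, Pi.single_eq_of_ne hi]
  have hB := congrArg B he
  rw [map_add, map_smul, h, hinv] at hB
  have hne : B e ≠ 0 := by
    rw [Ne, B.map_eq_zero_iff]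
    intro h1
    simpa [e] using congrFun h1 j
  obtain ⟨i, hi⟩ := Function.ne_iff.1 hne
  have h3 := congrFun hB i
  simp only [Pi.add_apply, rot, Pi.smul_apply, Complex.real_smul, neg_mul, zpow_neg] at h3
  rw [← add_mul, ← hc] at h3
  have h4 := mul_right_cancel₀ hi h3
  set u := xi 56 ^ (l * s1 i) with hu
  have hu0 : u ≠ 0 := zpow_ne_zero _ h0
  have h5 : (u * v⁻¹ - 1) * (u * v - 1) = 0 := by
    field_simp
    field_simp at h4
    linear_combination h4
  rcases mul_eq_zero.1 h5 with h6 | h6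
  · rw [sub_eq_zero, hu, hv, ← zpow_neg, ← zpow_add₀ h0, prim.zpow_eq_one_iff_dvd,
      ← ZMod.intCast_zmod_eq_zero_iff_dvd] at h6
    push_cast at h6
    exact (hj i).1 (by linear_combination h6)
  · rw [sub_eq_zero, hu, hv, ← zpow_add₀ h0, prim.zpow_eq_one_iff_dvd,
      ← ZMod.intCast_zmod_eq_zero_iff_dvd] at h6
    push_cast at h6
    exact (hj i).2 (by linear_combination h6)

theorem result : ∃ (q n : ℕ) (s s' : Fin n → ℤ), 2 ≤ n ∧ 3 ≤ q ∧
    (Nat.totient q / 2) ∣ n + 1 ∧ (∀ j, IsCoprime (s j) q) ∧ (∀ j, IsCoprime (s' j) q) ∧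
    (∀ k, Module.finrank ℂ (harm q s k) = Module.finrank ℂ (harm q s' k)) ∧
    ¬ ∃ (B : (Fin n → ℂ) ≃ₗ[ℝ] (Fin n → ℂ)) (l : ℤ), ∀ z, B (rot q s' 1 z) = rot q s l (B z) := by
  refine ⟨56, 11, s1, s2, by norm_num, by norm_num, by decide +kernel, ?_, ?_, fun k => ?_, ?_⟩
  · intro j
    rw [Int.isCoprime_iff_gcd_eq_one]
    revert j; decide +kernel
  · intro j
    rw [Int.isCoprime_iff_gcd_eq_one]
    revert j; decide +kernel
  · have hh : ∀ s : Fin 11 → ℤ, harm 56 s k =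
        restrictSupport ℂ (S 56 s k) ⊓ LinearMap.ker (Pool.Agent.H2.Lens.lap 11) := by
      intro s
      rw [← V_eq (by norm_num) prim]
      rfl
    rw [hh, hh]
    refine harm_eq (n := 10) s1 s2 (fun k => ?_) k
    rw [inv_eq, inv_eq]
    have e1 : List.ofFn (Fin.append (fun j => (s1 j : ZMod 56)) fun j => -(s1 j : ZMod 56)) = L1 := by
      decide +kernel
    have e2 : List.ofFn (Fin.append (fun j => (s2 j : ZMod 56)) fun j => -(s2 j : ZMod 56)) = L2 := by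
      decide +kernel
    rw [e1, e2, A_L]
  · rintro ⟨B, l, h⟩
    exact not_conj B l h

end Pool.Agent.Results.MP_1b0b4e_gt.Pair
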